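import Pool.Agent.Helper14.RM.Count

set_option autoImplicit false

open scoped Pointwise
open Pool.Agent.Helper14.RM

namespace Pool.Agent.Results.MP_ddde08_al.CountableTargets

/-- Super-rigidity of the random monster group with respect to every countable group `G`
(in particular with respect to every biautomatic group). -/
theorem result {d k j : ℕ} [NeZero k] (hj : 1 ≤ j) {Ω : ℕ → FinGraph}
    (hΩ : Admissible d Ω) (G : Type*) [Group G] [Countable G] :
    SuperRigid Ω (symGen k ^ j) G :=
  superRigid_of_countable hj hΩ G

end Pool.Agent.Results.MP_ddde08_al.CountableTargets
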